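import Mathlib

set_option autoImplicit false

/-!
# MP_820b44_gt: products of a small set of reals with a second factor

`A × Y` satisfies `S₁(Γ, O)` if
* `|A| < cov(M)` and `Y` is a `γ`-set; or
* `|A| < 𝔟` and `Y` is iteratively (with a countable rank) concentrated on subsets all of whose
  Borel images in `ω^ω` are not dominating, for example `𝔡`-concentrated on a countable set; or
* `|A| < 𝔡` and `Y` is iteratively concentrated on subsets all of whose Borel images in `ω^ω` are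
  bounded, for example `𝔟`-concentrated on a countable set.
-/

namespace Pool.Agent.Results.MP_820b44_gt.SmallFactors

open Set Filter Topology
open Cardinal hiding univ

/-- `U` is an open cover of `X` (not containing `X`). -/
def OpenCover {X : Type} [TopologicalSpace X] (U : Set (Set X)) : Prop :=
  (∀ u ∈ U, IsOpen u) ∧ ⋃₀ U = univ ∧ univ ∉ U

/-- `U` is an open `ω`-cover of `X`. -/
def OmegaCover {X : Type} [TopologicalSpace X] (U : Set (Set X)) : Prop :=
  OpenCover U ∧ ∀ F : Set X, F.Finite → ∃ u ∈ U, F ⊆ u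

/-- `U` is an open `γ`-cover of `X`. -/
def GammaCover {X : Type} [TopologicalSpace X] (U : Set (Set X)) : Prop :=
  OpenCover U ∧ U.Infinite ∧ ∀ x : X, {u ∈ U | x ∉ u}.Finite

/-- The `γ`-property: every open `ω`-cover contains a `γ`-cover. -/
def GammaProperty (X : Type) [TopologicalSpace X] : Prop :=
  ∀ U : Set (Set X), OmegaCover U → ∃ V ⊆ U, GammaCover V

/-- The property `S₁(Γ, O)`. -/
def S1GO (X : Type) [TopologicalSpace X] : Prop :=
  ∀ U : ℕ → Set (Set X), (∀ n, GammaCover (U n)) →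
    ∃ V : ℕ → Set X, (∀ n, V n ∈ U n) ∧ ⋃ n, V n = univ

/-- `f ≤* g`. -/
def LeStar (f g : ℕ → ℕ) : Prop := ∀ᶠ n in atTop, f n ≤ g n

/-- `𝔟`: the least size of a `≤*`-unbounded family. -/
noncomputable def bNum : Cardinal.{0} :=
  sInf {κ | ∃ B : Set (ℕ → ℕ), #B = κ ∧ ∀ g, ∃ f ∈ B, ¬ LeStar f g}

/-- `𝔡`: the least size of a dominating family. -/
noncomputable def dNum : Cardinal.{0} :=
  sInf {κ | ∃ D : Set (ℕ → ℕ), #D = κ ∧ ∀ f, ∃ g ∈ D, LeStar f g}

/-- `cov(M)`: the least size of a family of meagre sets covering the Baire space `ω^ω`. -/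
noncomputable def covM : Cardinal.{0} :=
  sInf {κ | ∃ M : Set (Set (ℕ → ℕ)), #M = κ ∧ (∀ s ∈ M, IsMeagre s) ∧ ⋃₀ M = univ}

/-- `[ω]^ω` as a subset of the Cantor space (characteristic functions of infinite sets). -/
def InfSets : Set (ℕ → Bool) := {x | {n | x n = true}.Infinite}

/-- The positive answer to Q1. -/
def Q1 : Prop :=
  ∀ A Y : Set (ℕ → Bool), A ⊆ InfSets → #A < bNum → GammaProperty Y → S1GO (A × Y)

/-- The positive answer to Q2. -/
def Q2 : Prop :=
  ∀ A Y : Set (ℕ → Bool), A ⊆ InfSets → #A < dNum → GammaProperty Y → S1GO (A × Y)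

/-- No Borel image of `Z` in `ω^ω` is dominating. -/
def NonDominating {Y : Type} [MeasurableSpace Y] (Z : Set Y) : Prop :=
  ∀ φ : Z → ℕ → ℕ, Measurable φ → ∃ f : ℕ → ℕ, ∀ z, ∃ᶠ n in atTop, φ z n ≤ f n

/-- Every Borel image of `Z` in `ω^ω` is bounded. -/
def BorelBounded {Y : Type} [MeasurableSpace Y] (Z : Set Y) : Prop :=
  ∀ φ : Z → ℕ → ℕ, Measurable φ → ∃ f : ℕ → ℕ, ∀ z, ∀ᶠ n in atTop, φ z n ≤ f n

/-- Well-founded countably branching trees, used as countable ranks. -/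
inductive Rank : Type where
  | zero : Rank
  | node : (ℕ → Rank) → Rank

/-- `Z` is concentrated of rank `r`: at rank `zero` it is small, and at rank `node r` it has a small
subset `Q` such that for each open `G ⊇ Q` the rest `Z \ G` is concentrated of rank `r i` for
some `i`. -/
def Conc {Y : Type} [TopologicalSpace Y] (Small : Set Y → Prop) : Rank → Set Y → Prop
  | .zero, Z => Small Z
  | .node r, Z => ∃ Q ⊆ Z, Small Q ∧
      ∀ G : Set Y, IsOpen G → Q ⊆ G → ∃ i, Conc Small (r i) (Z \ G)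

/-! ### cardinals -/

lemma bounded_of_lt {ι : Type} (h : #ι < bNum) (F : ι → ℕ → ℕ) : ∃ g, ∀ i, LeStar (F i) g := by
  by_contra hc
  push Not at hc
  have h1 : bNum ≤ #(range F) := by
    refine csInf_le' ⟨range F, rfl, fun g => ?_⟩
    obtain ⟨i, hi⟩ := hc g
    exact ⟨F i, ⟨i, rfl⟩, hi⟩
  exact absurd (h1.trans mk_range_le) (not_le.mpr h)

lemma escape_of_lt {ι : Type} (h : #ι < dNum) (F : ι → ℕ → ℕ) :
    ∃ g : ℕ → ℕ, ∀ i, ∃ᶠ n in atTop, F i n < g n := by
  by_contra hc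
  push Not at hc
  have h1 : dNum ≤ #(range F) := by
    refine csInf_le' ⟨range F, rfl, fun g => ?_⟩
    obtain ⟨i, hi⟩ := hc g
    refine ⟨F i, ⟨i, rfl⟩, ?_⟩
    exact hi
  exact absurd (h1.trans mk_range_le) (not_le.mpr h)

lemma avoid_of_lt {ι : Type} (h : #ι < covM) (S : ι → Set (ℕ → ℕ)) (hS : ∀ i, IsMeagre (S i)) :
    ∃ g, ∀ i, g ∉ S i := by
  by_contra hc
  push Not at hc
  have h1 : covM ≤ #(range S) := by
    refine csInf_le' ⟨range S, rfl, ?_, ?_⟩
    · rintro _ ⟨i, rfl⟩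
      exact hS i
    · rw [eq_univ_iff_forall]
      intro g
      obtain ⟨i, hi⟩ := hc g
      exact ⟨S i, ⟨i, rfl⟩, hi⟩
  exact absurd (h1.trans mk_range_le) (not_le.mpr h)

lemma meagre_ne (f : ℕ → ℕ) : IsMeagre {g : ℕ → ℕ | ∀ᶠ n in atTop, g n ≠ f n} := by
  have h1 : {g : ℕ → ℕ | ∀ᶠ n in atTop, g n ≠ f n} = ⋃ k : ℕ, {g | ∀ n ≥ k, g n ≠ f n} := by
    ext g
    simp [eventually_atTop]
  rw [h1]
  refine isMeagre_iUnion fun k => IsNowhereDense.isMeagre ?_
  have hcl : IsClosed {g : ℕ → ℕ | ∀ n ≥ k, g n ≠ f n} := by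
    have h2 : {g : ℕ → ℕ | ∀ n ≥ k, g n ≠ f n} = ⋂ n : ℕ, ⋂ _ : n ≥ k, {g | g n ≠ f n} := by
      ext g
      simp
    rw [h2]
    refine isClosed_iInter fun n => isClosed_iInter fun _ => ?_
    have h3 : {g : ℕ → ℕ | g n ≠ f n} = (fun g : ℕ → ℕ => g n) ⁻¹' {f n}ᶜ := by
      ext g
      simp
    rw [h3]
    exact (isClosed_discrete _).preimage (continuous_apply n)
  rw [IsNowhereDense, hcl.closure_eq, eq_empty_iff_forall_notMem]
  intro g hg
  have ht : Tendsto (fun j => Function.update g j (f j)) atTop (𝓝 g) := by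
    rw [tendsto_pi_nhds]
    intro i
    refine tendsto_const_nhds.congr' ?_
    filter_upwards [eventually_gt_atTop i] with j hj
    rw [Function.update_of_ne hj.ne]
  have h4 := ht.eventually (mem_interior_iff_mem_nhds.mp hg)
  obtain ⟨j, hj1, hj2⟩ := (h4.and (eventually_ge_atTop k)).exists
  exact hj1 j hj2 (by simp)

/-! ### covers -/

lemma enum {X : Type} [TopologicalSpace X] {U : Set (Set X)} (hU : GammaCover U) :
    ∃ e : ℕ → Set X, (∀ m, e m ∈ U) ∧ (∀ m, IsOpen (e m)) ∧ ∀ x, ∀ᶠ m in atTop, x ∈ e m := by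
  let ι := hU.2.1.natEmbedding
  refine ⟨fun m => (ι m).1, fun m => (ι m).2, fun m => hU.1.1 _ (ι m).2, fun x => ?_⟩
  rw [← Nat.cofinite_eq_atTop, eventually_cofinite]
  have h1 := (hU.2.2 x).preimage
    (f := fun m => (ι m).1) (Subtype.val_injective.comp ι.injective).injOn
  refine h1.subset fun m hm => ?_
  exact ⟨(ι m).2, hm⟩

/-- A `γ`-set selects from `γ`-covers (indexed form of `S₁(Γ, Γ)`). -/
lemma gamma_sel {Y : Type} [TopologicalSpace Y] [T1Space Y] (hY : GammaProperty Y)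
    (U : ℕ → ℕ → Set Y) (ho : ∀ n m, IsOpen (U n m)) (hU : ∀ n y, ∀ᶠ m in atTop, y ∈ U n m) :
    ∃ f : ℕ → ℕ, ∀ y, ∀ᶠ n in atTop, y ∈ U n (f n) := by
  rcases finite_or_infinite Y with hfin | hinf
  · have h1 : ∀ n, ∃ m, ∀ y, y ∈ U n m := fun n => (eventually_all.mpr (hU n)).exists
    choose f hf using h1
    exact ⟨f, fun y => Eventually.of_forall fun n => hf n y⟩
  · let x := Infinite.natEmbedding Y
    let W : ℕ → ℕ → Set Y := fun n m => (⋂ i ∈ Finset.range (n + 1), U i m) \ {x n}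
    have hW : OmegaCover {w | ∃ n m, w = W n m} := by
      have hfin : ∀ F : Set Y, F.Finite → ∃ u ∈ {w | ∃ n m, w = W n m}, F ⊆ u := by
        intro F hF
        obtain ⟨_, ⟨n, rfl⟩, hn⟩ :=
          (Set.infinite_range_of_injective x.injective).exists_notMem_finite hF
        have h1 : ∀ᶠ m in atTop, ∀ y ∈ F, ∀ i ∈ Finset.range (n + 1), y ∈ U i m := by
          rw [eventually_all_finite hF]
          intro y _
          rw [Filter.eventually_all_finset]
          intro i _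
          exact hU i y
        obtain ⟨m, hm⟩ := h1.exists
        refine ⟨W n m, ⟨n, m, rfl⟩, fun y hy => ⟨?_, ?_⟩⟩
        · exact mem_iInter₂.mpr (hm y hy)
        · rintro rfl
          exact hn hy
      refine ⟨⟨?_, ?_, ?_⟩, hfin⟩
      · rintro _ ⟨n, m, rfl⟩
        exact (isOpen_biInter_finset fun i _ => ho i m).sdiff isClosed_singleton
      · rw [eq_univ_iff_forall]
        intro y
        obtain ⟨u, hu, hy⟩ := hfin {y} (finite_singleton y)
        exact ⟨u, hu, hy rfl⟩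
      · rintro ⟨n, m, h⟩
        have : x n ∈ W n m := h ▸ mem_univ (x n)
        exact this.2 rfl
    obtain ⟨V, hVW, hV⟩ := hY _ hW
    have hex : ∀ v : V, ∃ n m, v.1 = W n m := fun v => hVW v.2
    choose nn mm hnm using hex
    have hfin : ∀ N, {v : V | nn v ≤ N}.Finite := by
      intro N
      have h1 : {v : V | nn v ≤ N} ⊆ ⋃ k ∈ Finset.range (N + 1), {v : V | x k ∉ v.1} := by
        intro v hv
        simp only [mem_iUnion]
        refine ⟨nn v, Finset.mem_range.mpr (Nat.lt_succ_of_le hv), ?_⟩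
        rw [mem_ofPred_eq, hnm v]
        exact fun h => h.2 rfl
      refine (Set.Finite.biUnion (Finset.finite_toSet _) fun k _ => ?_).subset h1
      refine ((hV.2.2 (x k)).preimage Subtype.val_injective.injOn).subset fun v hv => ?_
      exact ⟨v.2, hv⟩
    have : Infinite V := hV.2.1.to_subtype
    have hbig : ∀ N, ∃ v : V, N ≤ nn v := by
      intro N
      by_contra hc
      push Not at hc
      refine Set.infinite_univ (α := V) ((hfin N).subset fun v _ => (hc v).le)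
    choose v hv using hbig
    refine ⟨fun N => mm (v N), fun y => ?_⟩
    have hbad : {w : V | y ∉ w.1}.Finite :=
      ((hV.2.2 y).preimage Subtype.val_injective.injOn).subset fun w hw => ⟨w.2, hw⟩
    have h2 : ∀ᶠ N in atTop, y ∈ (v N).1 := by
      rw [← Nat.cofinite_eq_atTop, eventually_cofinite]
      refine (hbad.biUnion fun w _ => finite_Iic (nn w)).subset fun N hN => ?_
      exact mem_biUnion (show v N ∈ {w : V | y ∉ w.1} from hN) (hv N)
    filter_upwards [h2] with N hN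
    rw [hnm (v N)] at hN
    exact mem_iInter₂.mp hN.1 N (Finset.mem_range.mpr (Nat.lt_succ_of_le (hv N)))

lemma open_section {A Y : Type} [TopologicalSpace A] [TopologicalSpace Y] {u : Set (A × Y)}
    (hu : IsOpen u) (a : A) : IsOpen {y | (a, y) ∈ u} :=
  hu.preimage (Continuous.prodMk_right a)

theorem part_cov {A Y : Type} [TopologicalSpace A] [TopologicalSpace Y] [T1Space Y]
    (hA : #A < covM) (hY : GammaProperty Y) : S1GO (A × Y) := by
  intro U hU
  choose e he1 he2 he3 using fun n => enum (hU n)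
  have h1 : ∀ a : A, ∃ f : ℕ → ℕ, ∀ y, ∀ᶠ n in atTop, y ∈ {y | (a, y) ∈ e n (f n)} := fun a =>
    gamma_sel hY (fun n m => {y | (a, y) ∈ e n m}) (fun n m => open_section (he2 n m) a)
      (fun n y => he3 n (a, y))
  choose f hf using h1
  obtain ⟨g, hg⟩ := avoid_of_lt hA (fun a => {g | ∀ᶠ n in atTop, g n ≠ f a n})
    (fun a => meagre_ne (f a))
  refine ⟨fun n => e n (g n), fun n => he1 n _, ?_⟩
  rw [eq_univ_iff_forall]
  rintro ⟨a, y⟩
  have h2 : ∃ᶠ n in atTop, g n = f a n := by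
    have h3 : ¬ ∀ᶠ n in atTop, g n ≠ f a n := hg a
    intro h4
    exact h3 h4
  obtain ⟨n, hn1, hn2⟩ := (h2.and_eventually (hf a y)).exists
  refine mem_iUnion.mpr ⟨n, ?_⟩
  rw [hn1]
  exact hn2

/-! ### thresholds -/

/-- least `k` with `p ∈ e n m` for all `m ≥ k` -/
noncomputable def thr {X : Type} (e : ℕ → ℕ → Set X) (p : X) (n : ℕ) : ℕ :=
  sInf {k | ∀ m ≥ k, p ∈ e n m}

lemma thr_spec {X : Type} {e : ℕ → ℕ → Set X} (he : ∀ n p, ∀ᶠ m in atTop, p ∈ e n m) (p : X)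
    (n m : ℕ) (hm : thr e p n ≤ m) : p ∈ e n m := by
  have hne : {k | ∀ m ≥ k, p ∈ e n m}.Nonempty := eventually_atTop.mp (he n p)
  exact Nat.sInf_mem hne m hm

lemma thr_le_iff {X : Type} {e : ℕ → ℕ → Set X} (he : ∀ n p, ∀ᶠ m in atTop, p ∈ e n m) (p : X)
    (n k : ℕ) : thr e p n ≤ k ↔ ∀ m ≥ k, p ∈ e n m :=
  ⟨fun h m hm => thr_spec he p n m (h.trans hm), fun h => Nat.sInf_le h⟩

lemma thr_meas {A Y : Type} [TopologicalSpace A] [TopologicalSpace Y] [MeasurableSpace Y]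
    [OpensMeasurableSpace Y] {e : ℕ → ℕ → Set (A × Y)} (ho : ∀ n m, IsOpen (e n m))
    (he : ∀ n p, ∀ᶠ m in atTop, p ∈ e n m) (Q : Set Y) (a : A) (r : ℕ → ℕ) :
    Measurable (fun (q : Q) (n : ℕ) => thr e (a, q.1) (r n)) := by
  rw [measurable_pi_iff]
  intro n
  refine measurable_of_Iic fun k => ?_
  have h1 : (fun q : Q => thr e (a, q.1) (r n)) ⁻¹' Iic k
      = Subtype.val ⁻¹' (⋂ m : ℕ, ⋂ _ : m ≥ k, {y | (a, y) ∈ e (r n) m}) := by
    ext q
    simp [thr_le_iff he]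
  rw [h1]
  refine measurable_subtype_coe (MeasurableSet.iInter fun m => MeasurableSet.iInter fun _ => ?_)
  exact (open_section (ho (r n) m) a).measurableSet

/-- if all sets of the family are small, `f` can be chosen -/
def Sel (A Y : Type) [TopologicalSpace A] [TopologicalSpace Y] (P : Set Y → Prop) : Prop :=
  ∀ (S : Set A) (Z : A → Set Y), (∀ a ∈ S, P (Z a)) → ∀ e : ℕ → ℕ → Set (A × Y),
    (∀ n m, IsOpen (e n m)) → (∀ n p, ∀ᶠ m in atTop, p ∈ e n m) →
    ∃ f : ℕ → ℕ, ∀ a ∈ S, ∀ z ∈ Z a, ∃ k, (a, z) ∈ e k (f k)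

lemma sel_rank {A Y : Type} [TopologicalSpace A] [TopologicalSpace Y] {Small : Set Y → Prop}
    (hbase : Sel A Y Small) (r : Rank) : Sel A Y (Conc Small r) := by
  induction r with
  | zero => exact hbase
  | node r ih =>
    intro S Z hZ e ho he
    have hZ' : ∀ a ∈ S, ∃ Q ⊆ Z a, Small Q ∧
        ∀ G : Set Y, IsOpen G → Q ⊆ G → ∃ i, Conc Small (r i) (Z a \ G) := hZ
    choose! Q hQZ hQ hQG using hZ'
    obtain ⟨F, hF⟩ := hbase S Q hQ (fun n => e (Nat.pair 0 n)) (fun n m => ho _ m)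
      (fun n p => he _ p)
    let G : A → Set Y := fun a => ⋃ n, {y | (a, y) ∈ e (Nat.pair 0 n) (F n)}
    have hGo : ∀ a, IsOpen (G a) := fun a => isOpen_iUnion fun n => open_section (ho _ _) a
    have hi : ∀ a ∈ S, ∃ i, Conc Small (r i) (Z a \ G a) := by
      intro a ha
      refine hQG a ha (G a) (hGo a) fun q hq => ?_
      obtain ⟨n, hn⟩ := hF a ha q hq
      exact mem_iUnion.mpr ⟨n, hn⟩
    choose! i hi' using hi
    have hH : ∀ j, ∃ H : ℕ → ℕ, ∀ a ∈ {a ∈ S | i a = j}, ∀ z ∈ Z a \ G a,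
        ∃ k, (a, z) ∈ e (Nat.pair (j + 1) k) (H k) := by
      intro j
      refine ih j {a ∈ S | i a = j} (fun a => Z a \ G a) ?_ (fun n => e (Nat.pair (j + 1) n))
        (fun n m => ho _ m) (fun n p => he _ p)
      rintro a ⟨ha, rfl⟩
      exact hi' a ha
    choose H hH' using hH
    refine ⟨fun n => if n.unpair.1 = 0 then F n.unpair.2 else H (n.unpair.1 - 1) n.unpair.2,
      fun a ha z hz => ?_⟩
    by_cases hzG : z ∈ G a
    · obtain ⟨n, hn⟩ := mem_iUnion.mp hzG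
      refine ⟨Nat.pair 0 n, ?_⟩
      simp only [Nat.unpair_pair, if_true]
      exact hn
    · obtain ⟨k, hk⟩ := hH' (i a) a ⟨ha, rfl⟩ z ⟨hz, hzG⟩
      refine ⟨Nat.pair (i a + 1) k, ?_⟩
      simp only [Nat.unpair_pair, Nat.add_sub_cancel, Nat.succ_ne_zero, if_false]
      exact hk

lemma s1go_of_sel {A Y : Type} [TopologicalSpace A] [TopologicalSpace Y] {P : Set Y → Prop}
    (h : Sel A Y P) (hP : P univ) : S1GO (A × Y) := by
  intro U hU
  choose e he1 he2 he3 using fun n => enum (hU n)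
  obtain ⟨f, hf⟩ := h univ (fun _ => univ) (fun _ _ => hP) e he2 he3
  refine ⟨fun n => e n (f n), fun n => he1 n _, ?_⟩
  rw [eq_univ_iff_forall]
  rintro ⟨a, y⟩
  obtain ⟨k, hk⟩ := hf a (mem_univ a) y (mem_univ y)
  exact mem_iUnion.mpr ⟨k, hk⟩

lemma sel_b {A Y : Type} [TopologicalSpace A] [TopologicalSpace Y] [MeasurableSpace Y]
    [OpensMeasurableSpace Y] (hA : #A < bNum) : Sel A Y NonDominating := by
  intro S Z hZ e ho he
  have h1 : ∀ a ∈ S, ∃ f : ℕ → ℕ, ∀ z : Z a, ∃ᶠ n in atTop, thr e (a, z.1) n ≤ f n :=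
    fun a ha => hZ a ha _ (thr_meas ho he (Z a) a (fun n => n))
  choose! f hf using h1
  obtain ⟨F, hF⟩ := bounded_of_lt hA f
  refine ⟨F, fun a ha z hz => ?_⟩
  obtain ⟨n, hn1, hn2⟩ := ((hf a ha ⟨z, hz⟩).and_eventually (hF a)).exists
  exact ⟨n, thr_spec he _ _ _ (hn1.trans hn2)⟩

lemma sel_d {A Y : Type} [TopologicalSpace A] [TopologicalSpace Y] [MeasurableSpace Y]
    [OpensMeasurableSpace Y] (hA : #A < dNum) : Sel A Y BorelBounded := by
  intro S Z hZ e ho he
  have h1 : ∀ a ∈ S, ∃ f : ℕ → ℕ, ∀ z : Z a, ∀ᶠ n in atTop, thr e (a, z.1) n ≤ f n :=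
    fun a ha => hZ a ha _ (thr_meas ho he (Z a) a (fun n => n))
  choose! f hf using h1
  obtain ⟨F, hF⟩ := escape_of_lt hA f
  refine ⟨F, fun a ha z hz => ?_⟩
  obtain ⟨n, hn1, hn2⟩ := ((hF a).and_eventually (hf a ha ⟨z, hz⟩)).exists
  exact ⟨n, thr_spec he _ _ _ (hn2.trans hn1.le)⟩

lemma nonDominating_of_lt {Y : Type} [MeasurableSpace Y] {Z : Set Y} (h : #Z < dNum) :
    NonDominating Z := by
  intro φ _
  obtain ⟨g, hg⟩ := escape_of_lt h φ
  exact ⟨g, fun z => (hg z).mono fun n hn => hn.le⟩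

lemma borelBounded_of_lt {Y : Type} [MeasurableSpace Y] {Z : Set Y} (h : #Z < bNum) :
    BorelBounded Z := by
  intro φ _
  obtain ⟨g, hg⟩ := bounded_of_lt h φ
  exact ⟨g, fun z => hg z⟩

lemma borelBounded_of_countable {Y : Type} [MeasurableSpace Y] {Z : Set Y} (h : Z.Countable) :
    BorelBounded Z := by
  intro φ _
  have := h.to_subtype
  obtain ⟨ι, hι⟩ := exists_injective_nat Z
  have hfin : ∀ n, {z : Z | ι z ≤ n}.Finite := fun n =>
    (finite_Iic n).preimage hι.injOn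
  refine ⟨fun n => (hfin n).toFinset.sup fun z => φ z n, fun z => ?_⟩
  filter_upwards [eventually_ge_atTop (ι z)] with n hn
  exact Finset.le_sup (f := fun z => φ z n) ((hfin n).mem_toFinset.mpr hn)

/-- **Main theorem.** -/
theorem result :
    (bNum ≤ covM → Q1) ∧ (dNum ≤ covM → Q2) ∧
    (∀ A Y : Set (ℕ → Bool), #A < covM → GammaProperty Y → S1GO (A × Y)) ∧
    (∀ A Y : Set (ℕ → Bool), #A < bNum → ∀ r : Rank, Conc NonDominating r (univ : Set Y) →
      S1GO (A × Y)) ∧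
    (∀ A Y : Set (ℕ → Bool), #A < dNum → ∀ r : Rank, Conc BorelBounded r (univ : Set Y) →
      S1GO (A × Y)) ∧
    (∀ A Y : Set (ℕ → Bool), #A < bNum → ∀ Q : Set Y, Q.Countable →
      (∀ G : Set Y, IsOpen G → Q ⊆ G → #(Gᶜ : Set Y) < dNum) → S1GO (A × Y)) ∧
    (∀ A Y : Set (ℕ → Bool), #A < dNum → ∀ Q : Set Y, Q.Countable →
      (∀ G : Set Y, IsOpen G → Q ⊆ G → #(Gᶜ : Set Y) < bNum) → S1GO (A × Y)) := by
  refine ⟨fun h A Y _ hA hY => part_cov (hA.trans_le h) hY,
    fun h A Y _ hA hY => part_cov (hA.trans_le h) hY, fun A Y hA hY => part_cov hA hY,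
    fun A Y hA r hr => s1go_of_sel (sel_rank (sel_b hA) r) hr,
    fun A Y hA r hr => s1go_of_sel (sel_rank (sel_d hA) r) hr,
    fun A Y hA Q hQ hG => ?_, fun A Y hA Q hQ hG => ?_⟩
  · refine s1go_of_sel (sel_rank (sel_b hA) (Rank.node fun _ => Rank.zero)) ?_
    refine ⟨Q, subset_univ _, ?_, fun G hGo hQG => ⟨0, ?_⟩⟩
    · intro φ hφ
      obtain ⟨f, hf⟩ := borelBounded_of_countable hQ φ hφ
      exact ⟨f, fun z => (hf z).frequently⟩
    · rw [← compl_eq_univ_sdiff]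
      exact nonDominating_of_lt (hG G hGo hQG)
  · refine s1go_of_sel (sel_rank (sel_d hA) (Rank.node fun _ => Rank.zero)) ?_
    refine ⟨Q, subset_univ _, borelBounded_of_countable hQ, fun G hGo hQG => ⟨0, ?_⟩⟩
    rw [← compl_eq_univ_sdiff]
    exact borelBounded_of_lt (hG G hGo hQG)

end Pool.Agent.Results.MP_820b44_gt.SmallFactors
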